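import Pool.Agent.Lib.MP_124863_gt.Wu

/-! A source of an isometric holomorphic flow under nonnegative bisectional curvature. -/

open scoped Manifold ContDiff Topology Bundle
open Set Filter Function Metric Complex

namespace Pool.Agent.Lib.MP_124863_gt.NS

attribute [local irreducible] Bm fl gn

variable {n : ℕ} {α : Fin n → ℝ} {M : Type} [MetricSpace M] [ChartedSpace (Cn n) M]
  [Bundle.RiemannianBundle fun x : M => TangentSpace 𝓘(ℝ, Cn n) x] {a : ℝ → M → M}
  [IsManifold 𝓘(ℂ, Cn n) ω M] {ψ : Cn n → M} [IsManifold 𝓘(ℝ, Cn n) ∞ M]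
  [IsRiemannianManifold 𝓘(ℝ, Cn n) M]

omit [IsManifold 𝓘(ℂ, Cn n) ω M] [IsManifold 𝓘(ℝ, Cn n) ∞ M]
  [IsRiemannianManifold 𝓘(ℝ, Cn n) M] in
theorem inv (ha : IsIsomFlow n a) (h : Good α a ψ univ) (θ : ℝ) (z u v : Cn n) :
    Bm ψ (fl α (θ * I) z) (fl α (θ * I) u) (fl α (θ * I) v) = Bm ψ z u v := by
  rw [← Bm_act ha θ (h z trivial).1.md, ← show ψ ∘ fl α (θ * I) = a θ ∘ ψ from
    funext fun z => (h z trivial).2 θ,
    Bm_comp (h _ trivial).1.md ((fl α (θ * I)).hasFDerivAt.restrictScalars ℝ)]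
  rfl

theorem der (z : Cn n) (t : ℝ) :
    HasDerivAt (fun θ : ℝ => fl α (θ * I) z) (fl α (t * I) (I • gn α z)) t := by
  have := HasFDerivAt.comp_hasDerivAt (f := fun θ : ℝ => θ * I) t
    ((hasDerivAt_fl (α := α) _ z).hasFDerivAt.restrictScalars ℝ)
    (ofRealCLM.hasDerivAt.mul_const I)
  exact this.congr_deriv (by simp)

omit [IsManifold 𝓘(ℝ, Cn n) ∞ M] in
/-- The displacement of a point under the flow is bounded by the length of the generator. -/
theorem move (hK : IsKaehler n M) (ha : IsIsomFlow n a) (h : Good α a ψ univ) (z : Cn n) {θ : ℝ}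
    (hθ : 0 ≤ θ) : dist (ψ z) (a θ (ψ z)) ≤ θ * √(Bm ψ z (gn α z) (gn α z)) := by
  have := dist_le_integral (f := ψ) (c := fun t : ℝ => fl α (t * I) z)
    (σ := fun _ => √(Bm ψ z (gn α z) (gn α z))) hθ (fun t _ => (h _ trivial).1.1)
    (((fl_diff α).restrict_scalars ℝ |>.of_le (by norm_cast)).comp
      ((ofRealCLM.contDiff.mul contDiff_const).prodMk contDiff_const)).contDiffOn
    (fun t _ => der z t) continuousOn_const fun t _ => by
      rw [inv ha h, (hK.isH (h z trivial).1).inv]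
  rw [← (h z trivial).2]
  simpa using this

omit [IsManifold 𝓘(ℝ, Cn n) ∞ M] in
/-- A bounded orbit with bounded moment accumulates at a second fixed point. -/
theorem second [ProperSpace M] (hK : IsKaehler n M) (ha : IsIsomFlow n a) (hα : ∀ j, 1 ≤ α j)
    (h : Good α a ψ univ) (hi : Injective ψ) {μ : Cn n → ℝ}
    (hμ : ∀ z, HasFDerivAt μ (Bm ψ z (gn α z)) z) {s : Cn n} (hs : s ≠ 0) {m R : ℝ}
    (hm : ∀ t : ℝ, μ (fl α t s) ≤ m) (hb : ∀ w, ψ (fl α w s) ∈ closedBall (ψ 0) R) :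
    ∃ q, (∀ t, a t q = q) ∧ q ≠ ψ 0 := by
  have hd : ∀ t : ℝ, HasDerivAt (fun t : ℝ => μ (fl α t s))
      (Bm ψ (fl α t s) (gn α (fl α t s)) (gn α (fl α t s))) t := fun t =>
    (hμ _).comp_hasDerivAt t (by simpa only [gn_fl] using hasDerivAt_fl_real s t)
  have h1 : ∀ k : ℕ, ∃ t : ℝ, 0 ≤ t ∧
      √(Bm ψ (fl α t s) (gn α (fl α t s)) (gn α (fl α t s))) ≤ 1 / ((k : ℝ) + 1) := fun k => by
    have k0 : (0 : ℝ) < 1 / ((k : ℝ) + 1) := by positivity
    obtain ⟨δ, hδ⟩ : ∃ δ, δ = (1 / ((k : ℝ) + 1)) ^ 2 := ⟨_, rfl⟩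
    have d0 : 0 < δ := hδ ▸ by positivity
    have m0 := sub_nonneg.2 (hm 0)
    obtain ⟨T, hT⟩ : ∃ T, T = (m - μ (fl α (0 : ℝ) s)) / δ + 1 := ⟨_, rfl⟩
    have T0 : 0 < T := hT ▸ by positivity
    obtain ⟨c, hc, e⟩ := exists_hasDerivAt_eq_slope _ _ T0
      (fun t _ => (hd t).continuousAt.continuousWithinAt) fun t _ => hd t
    refine ⟨c, hc.1.le, Real.sqrt_le_iff.2 ⟨k0.le, ?_⟩⟩
    rw [e, ← hδ, sub_zero, div_le_iff₀ T0]
    have : δ * T = m - μ (fl α (0 : ℝ) s) + δ := by rw [hT]; field_simp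
    linarith [hm T]
  choose t t0 t1 using h1
  obtain ⟨r, r0, hr⟩ := Metric.mem_nhds_iff.1
    ((h 0 trivial).1.image_mem (ball_mem_nhds 0 (norm_pos_iff.2 hs)))
  obtain ⟨q, hq, φ, hφ, hl⟩ := ((isCompact_closedBall (ψ 0) R).diff
    (isOpen_ball (x := ψ 0) (ε := r))).tendsto_subseq (x := fun k => ψ (fl α (t k) s)) fun k =>
      ⟨hb _, fun h2 => by
        obtain ⟨z, hz, e⟩ := hr h2
        have := norm_fl_le' hα (w := -(t k : ℂ)) (by simpa using t0 k) (fl α (t k) s)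
        rw [fl_neg, ← hi e] at this
        exact this.not_gt (mem_ball_zero_iff.1 hz)⟩
  have h3 : ∀ θ, 0 ≤ θ → a θ q = q := fun θ hθ => by
    have c1 : Continuous (a θ) := ha.cont.comp (continuous_const.prodMk continuous_id)
    have l2 : Tendsto (fun k => θ * (1 / ((φ k : ℝ) + 1))) atTop (𝓝 (θ * 0)) :=
      (tendsto_one_div_add_atTop_nhds_zero_nat.comp hφ.tendsto_atTop).const_mul θ
    have := le_of_tendsto_of_tendsto' (hl.dist ((c1.tendsto q).comp hl)) l2 fun k =>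
      (move hK ha h _ hθ).trans (mul_le_mul_of_nonneg_left (t1 (φ k)) hθ)
    rw [mul_zero] at this
    exact (dist_le_zero.1 this).symm
  refine ⟨q, fun θ => ?_, fun e => hq.2 (e ▸ mem_ball_self r0)⟩
  rcases le_total 0 θ with h4 | h4
  · exact h3 θ h4
  · conv_lhs => rw [← h3 (-θ) (neg_nonneg.2 h4), ← ha.add, add_neg_cancel, ha.zero]

/-- Either the linearisation is onto, or there are a second fixed point and a bounded orbit. -/
theorem alt [ConnectedSpace M] [ProperSpace M] (hK : IsKaehler n M) (hR : NonnegBisec n M)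
    (ha : IsIsomFlow n a) (hα : ∀ j, 1 ≤ α j) (h : Good α a ψ univ) (hi : Injective ψ) :
    Surjective ψ ∨ (∃ q, (∀ t, a t q = q) ∧ q ≠ ψ 0) ∧
      ∃ s ≠ 0, ∃ R, ∀ w, ψ (fl α w s) ∈ closedBall (ψ 0) R := by
  obtain ⟨μ, hμ⟩ := exists_moment (α := α) (fun z => hK.diff (h z trivial).1)
    (fun z => hK.isH (h z trivial).1) (inv ha h) fun z => hK.cyc (h z trivial).1
  by_cases hu : ∀ s ≠ 0, ∀ m, ∃ t : ℝ, m < μ (fl α t s)
  · have h1 := isCompact_sublevel hα (continuous_iff_continuousAt.2 fun z => (hμ z).continuousAt)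
      (fun s => monotone_of_hasDerivAt_nonneg (fun t => (hμ _).comp_hasDerivAt t
        (hasDerivAt_fl_real s t)) fun t => by rw [gn_fl]; exact Bm_nonneg _ _ _) hu
    refine .inl (range_eq_univ.1 ?_)
    refine IsClopen.eq_univ ⟨h.closed_range hK ha hi hμ h1, isOpen_iff_mem_nhds.2 ?_⟩
      (range_nonempty ψ)
    rintro _ ⟨z, rfl⟩
    simpa using (h z trivial).1.image_mem univ_mem
  · push Not at hu
    obtain ⟨s, hs, m, hm⟩ := hu
    obtain ⟨R, hb⟩ := h.bounded hK hR ha hα hμ hs hm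
    exact .inr ⟨second hK ha hα h hi hμ hs hm hb, s, hs, R, hb⟩

theorem main [ConnectedSpace M] [CompleteSpace M] (hK : IsKaehler n M) (hR : NonnegBisec n M)
    (ha : IsIsomFlow n a) {p : M} (hp : ∀ t, a t p = p) {L : Cn n ≃L[ℂ] Cn n}
    (hα : ∀ j, 0 < α j) (hd : ∀ (t : ℝ) v,
      mfderiv 𝓘(ℂ, Cn n) 𝓘(ℂ, Cn n) (a t) p (L v) = L fun j => exp (α j * t * I) * v j) :
    List.TFAE [BiholCn n M, ∀ q, (∀ t, a t q = q) → q = p,
      ∀ c : ℂ → M, (∀ w, MDifferentiableAt 𝓘(ℂ, ℂ) 𝓘(ℂ, Cn n) c w) →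
        Bornology.IsBounded (range c) → ∀ w, c w = c 0] := by
  have := properSpace n M
  obtain ⟨k, hk⟩ : ∃ k, k = 1 + ∑ j, (α j)⁻¹ := ⟨_, rfl⟩
  have s0 : 0 ≤ ∑ j, (α j)⁻¹ := Finset.sum_nonneg fun i _ => (inv_pos.2 (hα i)).le
  have k0 : 0 < k := by linarith
  have hb : IsIsomFlow n fun t => a (k * t) :=
    ⟨by simpa using ha.zero, fun s t x => by rw [mul_add, ha.add], ha.smooth.comp
      (((contDiff_const.mul contDiff_id).contMDiff.comp contMDiff_fst).prodMk contMDiff_snd),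
      fun t => ha.holo _, fun t => ha.isom _⟩
  have hβ : ∀ j, 1 ≤ α j * k := fun j => (inv_le_iff_one_le_mul₀' (hα j)).1 (by
    linarith [Finset.single_le_sum (f := fun j => (α j)⁻¹) (fun i _ => (inv_pos.2 (hα i)).le)
      (Finset.mem_univ j)])
  obtain ⟨ψ₀, ε, hε, h1, h2⟩ := exists_good hb (fun t => hp _) (L := L) (α := fun j => α j * k)
    fun t v => (hd _ v).trans (congrArg L (funext fun j => by simp only [ofReal_mul, mul_assoc]))
  obtain ⟨ψ, h3, h4, -⟩ := exists_global hK hR hb hβ hε h1 h2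
  have hf : ∀ q, (∀ t, a (k * t) q = q) → ∀ t, a t q = q := fun q h t => by
    simpa only [mul_div_cancel₀ t k0.ne'] using h (t / k)
  have h5 := alt hK hR hb hβ h3 h4
  tfae_have 1 → 3 := by
    rintro ⟨χ, -, c2⟩ c hc hb' w
    refine χ.symm.injective (Differentiable.apply_eq_apply_of_bounded (f := χ.symm ∘ c)
      (fun w => ((c2 _).comp w (hc w)).differentiableAt) ?_ w 0)
    rw [range_comp]
    exact (hb'.isCompact_closure.image c2.continuous).isBounded.subset (image_mono subset_closure)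
  tfae_have 3 → 2 := fun h => by
    rcases h5 with h5 | ⟨-, s, hs, R, h5⟩
    · have key : ∀ q, (∀ t, a t q = q) → q = ψ 0 := fun q hq => by
        obtain ⟨z, rfl⟩ := h5 q
        by_contra e
        have d := hasDerivAt_fl_I (α := fun j => α j * k) z
        rw [show (fun θ : ℝ => fl (fun j => α j * k) (θ * I) z) = fun _ => z from
          funext fun θ => h4 (((h3 z trivial).2 θ).trans (hq _))] at d
        exact smul_ne_zero I_ne_zero (gn_ne hβ fun e' => e (by rw [e']))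
          (d.unique (hasDerivAt_const _ _))
      exact fun q hq => (key q hq).trans (key p hp).symm
    · have e := h4 (h _ (fun w => (h3.isOrb (u := s) trivial fun _ _ => trivial).1 w (mem_univ w))
        (isBounded_closedBall.subset (range_subset_iff.2 h5)) (-1))
      have := norm_fl_le hβ (w := -1) (by simp) s
      rw [e, fl_zero] at this
      have e1 : Real.exp (-1 : ℂ).re < 1 := Real.exp_lt_one_iff.2 (by simp)
      nlinarith [norm_pos_iff.2 hs]
  tfae_have 2 → 1 := fun h => by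
    rcases h5 with h5 | ⟨⟨q, q1, q2⟩, -⟩
    · exact biholCn_of (fun z => (h3 z trivial).1) ⟨h4, h5⟩
    · exact absurd ((h q (hf q q1)).trans
        (h _ (hf _ fun t => ((h3 0 trivial).2 t).symm.trans (by rw [map_zero]))).symm) q2
  tfae_finish

end Pool.Agent.Lib.MP_124863_gt.NS
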